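import Mathlib

set_option autoImplicit false
open Finset

namespace Pool.Agent.Results.MP_5333ad_co.Disproof

/-- Edge boundary of `S` in the graph `ℤ^d`: unordered pairs at `ℓ¹` distance one with exactly one
endpoint in `S`. -/
def edgeBoundary {d : ℕ} (S : Finset (Fin d → ℤ)) : Set (Sym2 (Fin d → ℤ)) :=
  {e | ∃ x y : Fin d → ℤ, e = s(x, y) ∧ ∑ i, |x i - y i| = 1 ∧ x ∈ S ∧ y ∉ S}

/-- The cube `a + {0, …, k-1}^d`. -/
noncomputable def cube {d : ℕ} (a : Fin d → ℤ) (k : ℕ) : Finset (Fin d → ℤ) :=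
  Fintype.piFinset (fun i => Finset.Ico (a i) (a i + k))

lemma card_cube {d : ℕ} (a : Fin d → ℤ) (k : ℕ) : (cube a k).card = k ^ d := by
  simp [cube, Fintype.card_piFinset]

lemma adj_cases {d : ℕ} (x y : Fin d → ℤ) (h : ∑ i, |x i - y i| = 1) :
    ∃ i, (∀ j, j ≠ i → y j = x j) ∧ (y i = x i + 1 ∨ y i = x i - 1) := by
  have hne : ∃ i, |x i - y i| ≠ 0 := by
    by_contra hc
    push Not at hc
    simp [hc] at h
  obtain ⟨i, hi⟩ := hne
  rw [← Finset.add_sum_erase _ _ (Finset.mem_univ i)] at h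
  have h0 : 0 ≤ ∑ j ∈ univ.erase i, |x j - y j| := Finset.sum_nonneg (fun j _ => abs_nonneg _)
  have h1 : 0 ≤ |x i - y i| := abs_nonneg _
  have h2 : |x i - y i| = 1 := by omega
  have h3 : ∑ j ∈ univ.erase i, |x j - y j| = 0 := by omega
  refine ⟨i, fun j hj => ?_, ?_⟩
  · have := (Finset.sum_eq_zero_iff_of_nonneg (fun j _ => abs_nonneg _)).1 h3 j (by simp [hj])
    rw [abs_eq_zero] at this
    omega
  · rcases abs_eq (by norm_num : (0:ℤ) ≤ 1) |>.1 h2 with h4 | h4
    · right; omega
    · left; omega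

noncomputable def box {d : ℕ} (a : Fin d → ℕ) : Finset (Fin d → ℤ) :=
  Fintype.piFinset (fun i => Finset.Ico (0:ℤ) (a i))

noncomputable def face {d : ℕ} (a : Fin d → ℕ) (i : Fin d) (c : ℤ) : Finset (Fin d → ℤ) :=
  Fintype.piFinset (Function.update (fun j => Finset.Ico (0:ℤ) (a j)) i {c})

lemma card_box {d : ℕ} (a : Fin d → ℕ) : (box a).card = ∏ i, a i := by
  simp [box, Fintype.card_piFinset]

lemma card_face {d : ℕ} (a : Fin d → ℕ) (i : Fin d) (c : ℤ) :
    (face a i c).card * a i = ∏ i, a i := by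
  rw [face, Fintype.card_piFinset, ← Finset.mul_prod_erase _ _ (Finset.mem_univ i),
    ← Finset.mul_prod_erase _ a (Finset.mem_univ i)]
  rw [Function.update_self, Finset.card_singleton, one_mul, mul_comm]
  congr 1
  apply Finset.prod_congr rfl
  intro j hj
  rw [Function.update_of_ne (Finset.ne_of_mem_erase hj)]
  simp

lemma boundary_box {d : ℕ} (a : Fin d → ℕ) (ha : ∀ i, 0 < a i) :
    ((edgeBoundary (box a)).ncard : ℝ) ≤ ∑ i, 2 * ((∏ j, a j : ℕ) : ℝ) / a i := by
  classical
  let T : Finset (Sym2 (Fin d → ℤ)) := Finset.univ.biUnion (fun i =>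
    (face a i (a i - 1)).image (fun x => s(x, Function.update x i (x i + 1))) ∪
    (face a i 0).image (fun x => s(x, Function.update x i (x i - 1))))
  have hsub : edgeBoundary (box a) ⊆ (T : Set _) := by
    rintro e ⟨x, y, rfl, hxy, hx, hy⟩
    obtain ⟨i, hoth, hi⟩ := adj_cases x y hxy
    simp only [box, Fintype.mem_piFinset, Finset.mem_Ico, not_forall] at hx hy
    obtain ⟨j, hj⟩ := hy
    have hji : j = i := by
      by_contra hne
      rw [hoth j hne] at hj
      exact hj (hx j)
    subst hji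
    have hxj := hx j
    simp only [T, Finset.coe_biUnion, Finset.coe_univ, Set.mem_univ, Set.iUnion_true,
      Set.mem_iUnion, Finset.mem_coe, Finset.mem_union, Finset.mem_image]
    refine ⟨j, ?_⟩
    rcases hi with hi | hi
    · left
      refine ⟨x, ?_, ?_⟩
      · simp only [face, Fintype.mem_piFinset]
        intro l
        by_cases hl : l = j
        · subst hl; simp; omega
        · rw [Function.update_of_ne hl]; simpa using hx l
      · congr 1
        funext l
        by_cases hl : l = j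
        · subst hl; simp [hi]
        · rw [Function.update_of_ne hl, hoth l hl]
    · right
      refine ⟨x, ?_, ?_⟩
      · simp only [face, Fintype.mem_piFinset]
        intro l
        by_cases hl : l = j
        · subst hl; simp; omega
        · rw [Function.update_of_ne hl]; simpa using hx l
      · congr 1
        funext l
        by_cases hl : l = j
        · subst hl; simp [hi]
        · rw [Function.update_of_ne hl, hoth l hl]
  have h1 : (edgeBoundary (box a)).ncard ≤ T.card := by
    rw [← Set.ncard_coe_finset]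
    exact Set.ncard_le_ncard hsub (Finset.finite_toSet _)
  have h2 : T.card ≤ ∑ i, ((face a i (a i - 1)).card + (face a i 0).card) := by
    refine Finset.card_biUnion_le.trans (Finset.sum_le_sum fun i _ => ?_)
    exact (Finset.card_union_le _ _).trans (add_le_add Finset.card_image_le Finset.card_image_le)
  have h3 : ((edgeBoundary (box a)).ncard : ℝ) ≤
      ∑ i, (((face a i (a i - 1)).card : ℝ) + ((face a i 0).card : ℝ)) := by
    exact_mod_cast h1.trans h2
  refine h3.trans (le_of_eq (Finset.sum_congr rfl fun i _ => ?_))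
  have hp : (0:ℝ) < a i := by exact_mod_cast ha i
  have e1 : ((face a i (a i - 1)).card : ℝ) * a i = ((∏ j, a j : ℕ) : ℝ) := by
    exact_mod_cast card_face a i _
  have e2 : ((face a i 0).card : ℝ) * a i = ((∏ j, a j : ℕ) : ℝ) := by
    exact_mod_cast card_face a i _
  rw [eq_div_iff hp.ne']
  linarith

lemma two_mul_pow_le (k : ℕ) (hk : 1 ≤ k) : 2 * k ^ k ≤ (k + 1) ^ k := by
  have hk' : (0:ℝ) < k := by exact_mod_cast hk
  have h := one_add_mul_le_pow (a := (1 / k : ℝ)) (by
    have : (0:ℝ) < 1 / k := by positivity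
    linarith) k
  have e : (1 + 1 / (k:ℝ)) = (k + 1) / k := by field_simp
  rw [e, div_pow, le_div_iff₀ (by positivity)] at h
  have e2 : (1 + (k:ℝ) * (1 / k)) = 2 := by field_simp; norm_num
  rw [e2] at h
  exact_mod_cast h

lemma le_of_sq_le_sq_aux (x y : ℝ) (hy : 0 ≤ y) (h : x ^ 2 ≤ y ^ 2) : x ≤ y :=
  (abs_le_of_sq_le_sq' h hy).2

theorem result : ∀ c : ℝ, 0 < c → ∃ (d : ℕ) (ε : ℝ) (S : Finset (Fin d → ℤ)),
    1 ≤ d ∧ 0 < ε ∧ S.Nonempty ∧
    ((edgeBoundary S).ncard : ℝ) ≤ 2 * d * (S.card : ℝ) ^ (((d : ℝ) - 1) / d) * (1 + ε) ∧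
    ∀ (a : Fin d → ℤ) (k : ℕ), 1 ≤ k →
      c * Real.sqrt (d * ε) * S.card < ((symmDiff S (cube a k)).card : ℝ) := by
  intro c hc
  obtain ⟨k, hk⟩ := exists_nat_gt (8 * c ^ 2 + 1)
  have hk1r : (1:ℝ) < k := by nlinarith [sq_nonneg c]
  have hk1 : 1 ≤ k := by exact_mod_cast hk1r.le
  have hkp : (0:ℝ) < k := by linarith
  let a : Fin (k + k) → ℕ := Fin.append (fun _ : Fin k => k + 1) (fun _ : Fin k => k)
  have hprod : ∏ i, a i = (k + 1) ^ k * k ^ k := by
    rw [Fin.prod_univ_add]
    simp only [a, Fin.append_left, Fin.append_right, Finset.prod_const, Finset.card_univ,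
      Fintype.card_fin]
  have hapos : ∀ i, 0 < a i := by
    intro i
    refine Fin.addCases (fun j => ?_) (fun j => ?_) i
    · simp only [a, Fin.append_left]; omega
    · simp only [a, Fin.append_right]; omega
  have hcard : (box a).card = (k + 1) ^ k * k ^ k := by rw [card_box, hprod]
  have hNpos : 0 < (k + 1) ^ k * k ^ k := by positivity
  refine ⟨k + k, 1 / (k:ℝ) ^ 2, box a, by omega, by positivity, ?_, ?_, ?_⟩
  · rw [← Finset.card_pos, hcard]; exact hNpos
  · refine (boundary_box a hapos).trans ?_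
    rw [hcard, hprod, Fin.sum_univ_add]
    simp only [a, Fin.append_left, Fin.append_right, Finset.sum_const, Finset.card_univ,
      Fintype.card_fin, nsmul_eq_mul]
    set s : ℝ := Real.sqrt (k * (k + 1)) with hs
    have hspos : 0 < s := Real.sqrt_pos.2 (by positivity)
    have hs2 : s ^ 2 = k * (k + 1) := Real.sq_sqrt (by positivity)
    have hN : (((k + 1) ^ k * k ^ k : ℕ) : ℝ) = s ^ (k + k) := by
      rw [← two_mul, pow_mul, hs2, mul_pow]; push_cast; ring
    rw [hN]
    have hr : (s ^ (k + k)) ^ (((((k + k : ℕ) : ℝ)) - 1) / ((k + k : ℕ) : ℝ)) = s ^ (k + k) / s := by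
      rw [← Real.rpow_natCast, ← Real.rpow_mul hspos.le, mul_div_cancel₀ _ (by positivity),
        Real.rpow_sub_one hspos.ne']
    rw [hr]
    set N : ℝ := s ^ (k + k) with hNdef
    have hNp : 0 < N := by positivity
    have hsk : (k:ℝ) ≤ s := by
      apply Real.le_sqrt_of_sq_le; nlinarith
    have key : 2 * (k:ℝ) + 1 ≤ 2 * s * (1 + 1 / (k:ℝ) ^ 2) := by
      have h1 : (0:ℝ) ≤ 2 * s * (1 + 1 / (k:ℝ) ^ 2) := by positivity
      apply le_of_sq_le_sq_aux _ _ h1
      have hu : (0:ℝ) < 1 / (k:ℝ) ^ 2 := by positivity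
      have hu2 : (k:ℝ) ^ 2 * (1 / (k:ℝ) ^ 2) = 1 := by field_simp
      set u : ℝ := 1 / (k:ℝ) ^ 2
      rw [mul_pow, mul_pow, hs2]
      have : (1 + u) ≤ (1 + u) ^ 2 := by nlinarith
      have h5 : (k:ℝ) * (k + 1) * (1 + u) ≤ k * (k + 1) * (1 + u) ^ 2 := by gcongr
      nlinarith [mul_pos hkp hu]
    have lhs : (k:ℝ) * (2 * N / ((k + 1 : ℕ) : ℝ)) + k * (2 * N / k) = 2 * N * (2 * k + 1) / (k + 1) := by
      push_cast; field_simp; ring
    rw [lhs]
    have rhs : 2 * ((k + k : ℕ) : ℝ) * (N / s) * (1 + 1 / (k:ℝ) ^ 2)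
        = 2 * N * (2 * s * (1 + 1 / (k:ℝ) ^ 2)) / (k + 1) := by
      push_cast
      have : (k:ℝ) + 1 = s ^ 2 / k := by rw [hs2]; field_simp
      rw [this]
      field_simp
      ring
    rw [rhs]
    gcongr
  · intro b m hm
    have hsq : c * Real.sqrt (((k + k : ℕ) : ℝ) * (1 / (k:ℝ) ^ 2)) < 1 / 2 := by
      have e : ((k + k : ℕ) : ℝ) * (1 / (k:ℝ) ^ 2) = 2 / k := by push_cast; field_simp; ring
      rw [e]
      have h1 : Real.sqrt (2 / k) < 1 / (2 * c) := by
        rw [Real.sqrt_lt' (by positivity), div_pow, div_lt_div_iff₀ hkp (by positivity)]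
        nlinarith
      calc c * Real.sqrt (2 / k) < c * (1 / (2 * c)) := by gcongr
        _ = 1 / 2 := by field_simp
    have hmain : (box a).card ≤ 2 * (symmDiff (box a) (cube b m)).card := by
      have h2 := two_mul_pow_le k hk1
      have hC := card_cube b m
      have hA : (box a).card ≤ (symmDiff (box a) (cube b m)).card + (cube b m).card := by
        refine le_trans (Finset.card_le_card ?_) (Finset.card_union_le _ _)
        intro x hx
        by_cases h : x ∈ cube b m
        · simp [h]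
        · simp [Finset.mem_symmDiff, hx, h]
      have hB : (cube b m).card ≤ (symmDiff (box a) (cube b m)).card + (box a).card := by
        refine le_trans (Finset.card_le_card ?_) (Finset.card_union_le _ _)
        intro x hx
        by_cases h : x ∈ box a
        · simp [h]
        · simp [Finset.mem_symmDiff, hx, h]
      rcases le_or_gt m k with hmk | hmk
      · have : m ^ (k + k) ≤ k ^ k * k ^ k := by
          rw [← pow_add]; exact Nat.pow_le_pow_left hmk _
        have h3 : 2 * k ^ k * k ^ k ≤ (k + 1) ^ k * k ^ k := Nat.mul_le_mul_right _ h2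
        rw [hcard] at hA ⊢
        rw [hC] at hA
        nlinarith
      · have : (k + 1) ^ k * (k + 1) ^ k ≤ m ^ (k + k) := by
          rw [← pow_add]; exact Nat.pow_le_pow_left hmk _
        have h3 : (k + 1) ^ k * (2 * k ^ k) ≤ (k + 1) ^ k * (k + 1) ^ k := Nat.mul_le_mul_left _ h2
        rw [hcard] at hB ⊢
        rw [hC] at hB
        nlinarith
    have hm' : ((box a).card : ℝ) ≤ 2 * ((symmDiff (box a) (cube b m)).card : ℝ) := by
      exact_mod_cast hmain
    have hpos : (0:ℝ) < (box a).card := by rw [hcard]; exact_mod_cast hNpos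
    nlinarith

end Pool.Agent.Results.MP_5333ad_co.Disproof
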